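import Pool.Agent.Helper48.KV.GoalsJ

open MeasureTheory Set Filter Topology

noncomputable section

namespace Pool.Agent.Helper2.KV

open Pool.Agent.Helper33.KV Pool.Agent.Helper41.KV Pool.Agent.Helper48.KV

theorem kq_pos {q : ℕ} (hq : 2 ≤ q) : 0 < kq q := by
  have : (2:ℝ) ≤ q := by exact_mod_cast hq
  unfold kq; positivity

theorem kq_le {q : ℕ} (hq : 2 ≤ q) : kq q ≤ 1/10 := by
  have : (2:ℝ) ≤ q := by exact_mod_cast hq
  unfold kq
  rw [div_le_div_iff₀ (by positivity) (by norm_num)]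
  linarith

theorem Y_rpow {q : ℕ} (hq : 2 ≤ q) (j : ℕ) : ((4:ℝ) ^ (10*q*j)) ^ (kq q) = 2^(4*j) := by
  have h1 : ((4:ℝ) ^ (10*q*j)) = (2^(4*j))^(5*q) := by
    rw [show (4:ℝ) = 2^2 by norm_num, ← pow_mul, ← pow_mul]; congr 1; ring
  have h2 : kq q = ((5*q : ℕ):ℝ)⁻¹ := by unfold kq; push_cast; rw [one_div]
  rw [h1, h2]
  exact Real.pow_rpow_inv_natCast (by positivity) (by omega)

/-- lower bound of `h` -/
theorem h_lower (h3 : S_JW) {q : ℕ} (hq : 2 ≤ q) (j : ℕ) {r t Z : ℝ} (hr : 0 < r) (ht : 0 < t)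
    (hZ : (1/2) * Xq q j ≤ Z) (hrZ : r * Z ≤ t) :
    1 / 2 * (2^(4*j) * (t ^ (kq q))⁻¹) ≤ hJ (kq q) r t Z := by
  have hκ := kq_pos hq
  have hκ' := kq_le hq
  have hX : 0 < Xq q j := by unfold Xq; positivity
  have hZ0 : 0 < Z := by linarith
  have h := (h3 (kq q) r t Z hκ (by linarith) hr ht hZ0)
  have hh : (Z / (4 * t)) ^ kq q ≤ hJ (kq q) r t Z := by
    obtain ⟨_, _, _, _, _, _, _, _, _, _, _, _, _, _, _, _, _, _, _, h5⟩ := h
    exact h5 hrZ
  refine le_trans ?_ hh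
  have h4 : (1/2) * (4 ^ (10*q*j) * t⁻¹) ≤ Z / (4 * t) := by
    have h6 : (1/2) * (4 * 4 ^ (10*q*j)) ≤ Z := hZ
    have ht' : 0 < t⁻¹ := inv_pos.2 ht
    have h7 : (1/2) * 4 ^ (10*q*j) ≤ Z * 4⁻¹ := by linarith
    calc (1/2) * (4 ^ (10*q*j) * t⁻¹) = ((1/2) * 4 ^ (10*q*j)) * t⁻¹ := by ring
      _ ≤ (Z * 4⁻¹) * t⁻¹ := mul_le_mul_of_nonneg_right h7 ht'.le
      _ = Z / (4 * t) := by rw [div_eq_mul_inv, mul_inv]; ring
  calc 1 / 2 * (2^(4*j) * (t ^ (kq q))⁻¹)
      ≤ (1/2)^(kq q) * (2^(4*j) * (t ^ (kq q))⁻¹) := by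
        apply mul_le_mul_of_nonneg_right _ (by positivity)
        calc (1/2 : ℝ) = (1/2)^(1:ℝ) := (Real.rpow_one _).symm
          _ ≤ (1/2)^(kq q) := Real.rpow_le_rpow_of_exponent_ge (by norm_num) (by norm_num) (by linarith)
    _ = ((1/2) * (4 ^ (10*q*j) * t⁻¹)) ^ (kq q) := by
        rw [Real.mul_rpow (by norm_num) (by positivity), Real.mul_rpow (by positivity) (by positivity),
          Y_rpow hq j, Real.inv_rpow ht.le]
    _ ≤ (Z / (4 * t)) ^ kq q := Real.rpow_le_rpow (by positivity) h4 hκ.le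

/-- upper bound of `h` -/
theorem h_upper (h3 : S_JW) {q : ℕ} (hq : 2 ≤ q) (j : ℕ) {A r t Z : ℝ} (hA : 1 ≤ A) (hr : 0 < r)
    (ht : 0 < t) (hZ0 : 0 < Z) (hZ : Z ≤ A + 5/4 * Xq q j) :
    hJ (kq q) r t Z ≤ (2 * (A + 2)) * (2^(4*j) * (t ^ (kq q))⁻¹) := by
  have hκ := kq_pos hq
  have hκ' := kq_le hq
  have hX : 0 < Xq q j := by unfold Xq; positivity
  have h := (h3 (kq q) r t Z hκ (by linarith) hr ht hZ0)
  have hh : hJ (kq q) r t Z ≤ (Z / (3 * t)) ^ kq q := by
    obtain ⟨_, _, _, _, _, _, _, _, _, _, _, _, _, _, _, _, _, _, h5, _⟩ := h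
    exact h5
  refine le_trans hh ?_
  have hY : (1:ℝ) ≤ 4 ^ (10*q*j) := one_le_pow₀ (by norm_num)
  have h4 : Z / (3 * t) ≤ (2 * (A + 2)) * (4 ^ (10*q*j) * t⁻¹) := by
    have h6 : Z ≤ A + 5/4 * (4 * 4 ^ (10*q*j)) := hZ
    rw [div_eq_mul_inv, mul_inv]
    have ht' : 0 < t⁻¹ := inv_pos.2 ht
    have h7 : Z * 3⁻¹ ≤ 2 * (A+2) * 4 ^ (10*q*j) := by nlinarith
    calc Z * (3⁻¹ * t⁻¹) = (Z * 3⁻¹) * t⁻¹ := by ring
      _ ≤ (2 * (A+2) * 4 ^ (10*q*j)) * t⁻¹ := mul_le_mul_of_nonneg_right h7 ht'.le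
      _ = _ := by ring
  calc (Z / (3 * t)) ^ kq q ≤ ((2 * (A + 2)) * (4 ^ (10*q*j) * t⁻¹)) ^ (kq q) :=
        Real.rpow_le_rpow (by positivity) h4 hκ.le
    _ = (2 * (A+2))^(kq q) * (2^(4*j) * (t ^ (kq q))⁻¹) := by
        rw [Real.mul_rpow (x := 2 * (A+2)) (by positivity) (by positivity),
          Real.mul_rpow (x := 4 ^ (10*q*j)) (by positivity) (by positivity),
          Y_rpow hq j, Real.inv_rpow ht.le]
    _ ≤ _ := by
        apply mul_le_mul_of_nonneg_right _ (by positivity)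
        calc (2 * (A+2))^(kq q) ≤ (2 * (A+2))^(1:ℝ) :=
              Real.rpow_le_rpow_of_exponent_le (by linarith) (by linarith)
          _ = _ := Real.rpow_one _

theorem hJ_mono {κ r t Z Z' : ℝ} (hκ : 0 < κ) (hr : 0 < r) (ht : 0 < t) (hZ : 0 < Z) (h : Z ≤ Z') :
    hJ κ r t Z ≤ hJ κ r t Z' := by
  unfold hJ
  apply Real.rpow_le_rpow (by positivity) _ hκ.le
  rw [div_le_div_iff₀ (by positivity) (by nlinarith)]
  nlinarith [mul_pos hr hZ, mul_pos ht hZ]

theorem hJ_low1 (h3 : S_JW) {q : ℕ} (hq : 2 ≤ q) {r t Z : ℝ} (hr : 0 < r) (ht : 0 < t) (ht1 : t ≤ 1)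
    (hrt : r * 100 ≤ t) (hZ : 100 ≤ Z) : (t ^ (kq q))⁻¹ ≤ hJ (kq q) r t Z := by
  have hκ := kq_pos hq
  have hκ' := kq_le hq
  have h := (h3 (kq q) r t 100 hκ (by linarith) hr ht (by norm_num))
  have hh : (100 / (4 * t)) ^ kq q ≤ hJ (kq q) r t 100 := by
    obtain ⟨_, _, _, _, _, _, _, _, _, _, _, _, _, _, _, _, _, _, _, h5⟩ := h
    exact h5 hrt
  refine le_trans ?_ (le_trans hh (hJ_mono hκ hr ht (by norm_num) hZ))
  rw [← Real.inv_rpow ht.le]
  apply Real.rpow_le_rpow (by positivity) _ hκ.le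
  rw [inv_eq_one_div, div_le_div_iff₀ ht (by positivity)]
  linarith

theorem hJ_cont {κ r t : ℝ} (hκ : 0 < κ) (hr : 0 < r) (ht : 0 < t) {z : ℝ → ℝ} (hz : Continuous z)
    (hz1 : ∀ x, 100 ≤ z x) : Continuous (fun x => hJ κ r t (z x)) := by
  unfold hJ
  have h1 : ∀ x, 3 * t + r * z x ≠ 0 := fun x => by
    have := hz1 x
    have : 0 < r * z x := mul_pos hr (by linarith)
    positivity
  exact (hz.div (continuous_const.add (continuous_const.mul hz)) h1).rpow_const
    (fun x => Or.inr hκ.le)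

theorem hJ_bdd {κ r t : ℝ} (hκ : 0 < κ) (hr : 0 < r) (ht : 0 < t) {Z : ℝ} (hZ : 0 < Z) :
    hJ κ r t Z ≤ (1 / r) ^ κ := by
  unfold hJ
  apply Real.rpow_le_rpow (by positivity) _ hκ.le
  rw [div_le_div_iff₀ (by positivity) hr]
  nlinarith

theorem QJ_cont {κ r t : ℝ} (hκ : 0 < κ) (hr : 0 < r) (ht : 0 < t) {z : ℝ → ℝ} (hz : Continuous z)
    (hz1 : ∀ x, 100 ≤ z x) : Continuous (fun x => QJ κ r t (z x)) := by
  unfold QJ
  refine (continuous_const.mul (hJ_cont hκ hr ht hz hz1)).div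
    (hz.mul (continuous_const.add (continuous_const.mul hz))) (fun x => ?_)
  have := hz1 x
  have h2 : 0 < z x := by linarith
  positivity

theorem QJ_le_h (h3 : S_JW) {κ r t : ℝ} (hκ : 0 < κ) (hκ' : κ ≤ 1/4) (hr : 0 < r) (ht : 0 < t) (ht1 : t ≤ 1)
    {Z : ℝ} (hZ : 100 ≤ Z) : 0 < QJ κ r t Z ∧ QJ κ r t Z ≤ hJ κ r t Z ∧ 0 < hJ κ r t Z := by
  have h := (h3 κ r t Z hκ hκ' hr ht (by linarith))
  obtain ⟨_, _, _, _, _, h1, _, _, h2, h4, _⟩ := h
  refine ⟨h2, h4.trans ?_, h1⟩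
  have : 3 * κ * t / Z ≤ 1 := by
    rw [div_le_one (by linarith)]
    nlinarith
  nlinarith

theorem sumI {s : Finset ℕ} {I : ℕ → Set ℝ} (hI : ∀ j, MeasurableSet (I j)) {f : ℝ → ℝ}
    {F : ℕ → ℝ → ℝ}
    (f0 : ∀ x, 0 ≤ f x) (fz : ∀ x, (∀ j ∈ s, x ∉ I j) → f x = 0)
    (Fi : ∀ j ∈ s, IntegrableOn (F j) (I j))
    (h : ∀ j ∈ s, ∀ x ∈ I j, f x ≤ F j x) : ∫ x, f x ≤ ∑ j ∈ s, ∫ x in I j, F j x := by
  have h1 : ∀ j ∈ s, Integrable ((I j).indicator (F j)) :=
    fun j hj => (Fi j hj).integrable_indicator (hI j)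
  have h2 : ∀ j ∈ s, ∀ x, 0 ≤ (I j).indicator (F j) x := fun j hj x => by
    by_cases hx : x ∈ I j
    · rw [Set.indicator_of_mem hx]; exact (f0 x).trans (h j hj x hx)
    · rw [Set.indicator_of_notMem hx]
  calc ∫ x, f x ≤ ∫ x, ∑ j ∈ s, (I j).indicator (F j) x := by
        apply integral_mono_of_nonneg (ae_of_all _ f0) (integrable_finset_sum _ h1)
        refine ae_of_all _ fun x => ?_
        by_cases hx : ∀ j ∈ s, x ∉ I j
        · show f x ≤ _
          rw [fz x hx]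
          exact Finset.sum_nonneg fun j hj => h2 j hj x
        · push Not at hx
          obtain ⟨j, hj, hx⟩ := hx
          calc f x ≤ F j x := h j hj x hx
            _ = (I j).indicator (F j) x := (Set.indicator_of_mem hx _).symm
            _ ≤ ∑ j ∈ s, (I j).indicator (F j) x :=
              Finset.single_le_sum (f := fun j => (I j).indicator (F j) x)
                (fun i hi => h2 i hi x) hj
    _ = ∑ j ∈ s, ∫ x in I j, F j x := by
        rw [integral_finset_sum _ h1]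
        exact Finset.sum_congr rfl fun j _ => integral_indicator (hI j)

/-- the Kato weight -/
theorem aK_pos (h5 : S_WT0) {X L : ℝ} (hL : 0 < L) (x : ℝ) : 0 < aK X L x ∧ aK X L x ≤ 1 := by
  obtain ⟨_, _, h, _⟩ := h5 L 1 hL one_pos
  exact ⟨(h _).1, (h _).2.le⟩

theorem aK_small {X L x S : ℝ} (hL : 0 < L) (hS : 0 < S) (h : L * S ≤ x + X) :
    aK X L x ≤ 1 / S := by
  unfold aK wt
  have h1 : S ≤ 1 + 1 * Real.exp (-(-(x + X) / L)) := by
    have h2 : S ≤ (x + X) / L := by rw [le_div_iff₀ hL]; linarith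
    have h3 := Real.add_one_le_exp ((x + X) / L)
    have h4 : -(-(x + X) / L) = (x + X) / L := by ring
    rw [h4]
    linarith
  exact one_div_le_one_div_of_le hS h1

theorem bK_low {X L x : ℝ} (hL : 0 < L) (h1 : -X - L ≤ x) (h2 : x ≤ -X + L) :
    1 / (6 * L) ≤ bK X L x := by
  unfold bK ph1 wt
  set s : ℝ := -(-(x + X) / L) with hs
  have hs1 : s = (x + X) / L := by rw [hs]; ring
  have hs2 : -1 ≤ s := by rw [hs1, le_div_iff₀ hL]; linarith
  have hs3 : s ≤ 1 := by rw [hs1, div_le_one hL]; linarith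
  set E := Real.exp s with hE
  have hE0 : 0 < E := Real.exp_pos _
  have hE1 : E ≤ 2.7182818286 := by
    have : E ≤ Real.exp 1 := Real.exp_le_exp.2 hs3
    linarith [Real.exp_one_lt_d9]
  have hE2 : 0.36 ≤ E := by
    have h3 : Real.exp (-1) ≤ E := Real.exp_le_exp.2 hs2
    have h4 : Real.exp (-1) * Real.exp 1 = 1 := by rw [← Real.exp_add]; simp
    have h5 := Real.exp_one_lt_d9
    have h6 := Real.exp_pos (-1)
    nlinarith
  have h7 : 1 / (1 + 1 * E) * (1 - 1 / (1 + 1 * E)) / L = E / ((1 + E)^2 * L) := by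
    field_simp
    ring
  rw [h7, div_le_div_iff₀ (by positivity) (by positivity)]
  have : (1 + E)^2 ≤ 6 * E := by nlinarith
  nlinarith

theorem aK_cont (h5 : S_WT0) {X L : ℝ} (hL : 0 < L) : Continuous (aK X L) := by
  obtain ⟨h, _⟩ := h5 L 1 hL one_pos
  unfold aK
  exact h.continuous.comp (by fun_prop)

theorem bK_cont (h5 : S_WT0) {X L : ℝ} (hL : 0 < L) : Continuous (bK X L) := by
  obtain ⟨_, h, _⟩ := h5 L 1 hL one_pos
  unfold bK
  exact h.continuous.comp (by fun_prop)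

theorem bK_bd (h5 : S_WT0) {X L : ℝ} (hL : 0 < L) (x : ℝ) : 0 < bK X L x ∧ bK X L x ≤ 1 / L := by
  obtain ⟨_, _, h, _, _, _, _, h', _⟩ := h5 L 1 hL one_pos
  have h1 := h' (-(x + X))
  have h2 := h (-(x + X))
  refine ⟨h1.1, h1.2.1.trans ?_⟩
  gcongr
  exact h2.2.le

/-- integrability of bounded continuous times integrable -/
theorem int_bc {a f : ℝ → ℝ} (ha : Continuous a) {M : ℝ} (hM : ∀ x, |a x| ≤ M) (hf : Integrable f) :
    Integrable (fun x => a x * f x) := by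
  refine hf.bdd_mul ha.aestronglyMeasurable (c := M) (ae_of_all _ fun x => ?_)
  rw [Real.norm_eq_abs]; exact hM x


theorem add_rpow34 {a b : ℝ} (ha : 0 ≤ a) (hb : 0 ≤ b) :
    (a + b) ^ ((3:ℝ)/4) ≤ a ^ ((3:ℝ)/4) + b ^ ((3:ℝ)/4) :=
  Real.rpow_add_le_add_rpow ha hb (by norm_num) (by norm_num)

theorem pow_rpow' {x : ℝ} (hx : 0 ≤ x) (n : ℕ) (y : ℝ) (m : ℕ) (h : (n:ℝ) * y = m) :
    (x ^ n) ^ y = x ^ m := by
  rw [← Real.rpow_natCast x n, ← Real.rpow_mul hx, h, Real.rpow_natCast]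

theorem P5_bound {s v u B m e : ℝ} (hs : 0 < s) (hs1 : s ≤ 1) (hu : 0 < u) (huv : u * v = 1)
    (hm0 : 0 ≤ m) (hm : m ≤ 4 * s * v ^ 4) (he0 : 0 ≤ e) (he : e ≤ 6 * u ^ 20 * B) (hB : 0 ≤ B) :
    6 * m ^ ((7:ℝ)/4) * (e + m / (u^20)^2) ^ ((3:ℝ)/4) ≤
      600 * s * (u ^ 8 * B ^ ((3:ℝ)/4) + v ^ 40) := by
  have hv : v = u⁻¹ := by field_simp; linarith
  have hv0 : 0 < v := by rw [hv]; positivity
  have h1 : m ^ ((7:ℝ)/4) ≤ 16 * s * v ^ 7 := by
    calc m ^ ((7:ℝ)/4) ≤ (4 * s * v ^ 4) ^ ((7:ℝ)/4) :=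
          Real.rpow_le_rpow hm0 hm (by norm_num)
      _ = 4 ^ ((7:ℝ)/4) * s ^ ((7:ℝ)/4) * v ^ 7 := by
          rw [Real.mul_rpow (by positivity) (by positivity), Real.mul_rpow (by positivity) hs.le,
            pow_rpow' hv0.le 4 _ 7 (by norm_num)]
      _ ≤ 16 * s * v ^ 7 := by
          have h2 : (4:ℝ) ^ ((7:ℝ)/4) ≤ 4 ^ (2:ℝ) :=
            Real.rpow_le_rpow_of_exponent_le (by norm_num) (by norm_num)
          have h3 : s ^ ((7:ℝ)/4) ≤ s ^ (1:ℝ) :=
            Real.rpow_le_rpow_of_exponent_ge hs hs1 (by norm_num)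
          rw [Real.rpow_one] at h3
          have h4 : (4:ℝ) ^ (2:ℝ) = 16 := by
            rw [show (2:ℝ) = ((2:ℕ):ℝ) by norm_num, Real.rpow_natCast]; norm_num
          rw [h4] at h2
          gcongr
  have h5 : m / (u^20)^2 ≤ 4 * v ^ 44 := by
    have : m / (u^20)^2 = m * v ^ 40 := by rw [hv]; field_simp
    rw [this]
    calc m * v ^ 40 ≤ (4 * s * v ^ 4) * v ^ 40 := by gcongr
      _ ≤ (4 * 1 * v ^ 4) * v ^ 40 := by gcongr
      _ = _ := by ring
  have h6 : (e + m / (u^20)^2) ^ ((3:ℝ)/4) ≤ 6 * u ^ 15 * B ^ ((3:ℝ)/4) + 4 * v ^ 33 := by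
    have h60 : (6:ℝ) ^ ((3:ℝ)/4) ≤ 6 := by
      calc (6:ℝ) ^ ((3:ℝ)/4) ≤ 6 ^ (1:ℝ) :=
            Real.rpow_le_rpow_of_exponent_le (by norm_num) (by norm_num)
        _ = 6 := Real.rpow_one _
    have h61 : (4:ℝ) ^ ((3:ℝ)/4) ≤ 4 := by
      calc (4:ℝ) ^ ((3:ℝ)/4) ≤ 4 ^ (1:ℝ) :=
            Real.rpow_le_rpow_of_exponent_le (by norm_num) (by norm_num)
        _ = 4 := Real.rpow_one _
    calc (e + m / (u^20)^2) ^ ((3:ℝ)/4) ≤ (6 * u ^ 20 * B + 4 * v ^ 44) ^ ((3:ℝ)/4) := by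
          apply Real.rpow_le_rpow (by positivity) _ (by norm_num)
          linarith
      _ ≤ (6 * u ^ 20 * B) ^ ((3:ℝ)/4) + (4 * v ^ 44) ^ ((3:ℝ)/4) :=
          add_rpow34 (by positivity) (by positivity)
      _ = 6 ^ ((3:ℝ)/4) * u ^ 15 * B ^ ((3:ℝ)/4) + 4 ^ ((3:ℝ)/4) * v ^ 33 := by
          rw [Real.mul_rpow (by positivity) hB, Real.mul_rpow (by positivity) (by positivity),
            Real.mul_rpow (x := 4) (by positivity) (by positivity),
            pow_rpow' hu.le 20 _ 15 (by norm_num), pow_rpow' hv0.le 44 _ 33 (by norm_num)]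
      _ ≤ _ := by gcongr
  have hB' : 0 ≤ B ^ ((3:ℝ)/4) := Real.rpow_nonneg hB _
  calc 6 * m ^ ((7:ℝ)/4) * (e + m / (u^20)^2) ^ ((3:ℝ)/4)
      ≤ 6 * (16 * s * v ^ 7) * (6 * u ^ 15 * B ^ ((3:ℝ)/4) + 4 * v ^ 33) := by gcongr
    _ = s * (576 * (u^15 * v^7) * B ^ ((3:ℝ)/4) + 384 * v ^ 40) := by ring
    _ = s * (576 * u ^ 8 * B ^ ((3:ℝ)/4) + 384 * v ^ 40) := by
        have : u^15 * v^7 = u^8 := by
          calc u^15 * v^7 = u^8 * (u*v)^7 := by ring
            _ = u^8 := by rw [huv]; ring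
        rw [this]
    _ ≤ s * (600 * u ^ 8 * B ^ ((3:ℝ)/4) + 600 * v ^ 40) := by
        apply mul_le_mul_of_nonneg_left _ hs.le
        have h8 : 0 ≤ u ^ 8 * B ^ ((3:ℝ)/4) := by positivity
        have h9 : 0 ≤ v ^ 40 := by positivity
        nlinarith
    _ = _ := by ring

theorem geom_Ico (a b : ℕ) : ∑ j ∈ Finset.Ico a b, ((1:ℝ)/2) ^ j ≤ 2 * (1/2)^a := by
  by_cases hab : a ≤ b
  · have h : ∀ b, a ≤ b → ∑ j ∈ Finset.Ico a b, ((1:ℝ)/2) ^ j = 2 * (1/2)^a - 2 * (1/2)^b := by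
      intro b hb
      induction b, hb using Nat.le_induction with
      | base => simp
      | succ m hm ih =>
        rw [Finset.sum_Ico_succ_top hm, ih, pow_succ]
        ring
    rw [h b hab]
    have : (0:ℝ) ≤ (1/2)^b := by positivity
    linarith
  · rw [Finset.Ico_eq_empty_of_le (by omega)]
    simp


theorem setle {I : Set ℝ} (hI : MeasurableSet I) {f g : ℝ → ℝ} {a : ℝ} (ha : 0 ≤ a)
    (hf : IntegrableOn f I) (hg : Integrable g) (g0 : ∀ x, 0 ≤ g x) (h : ∀ x ∈ I, f x ≤ a * g x) :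
    ∫ x in I, f x ≤ a * ∫ x, g x := by
  calc ∫ x in I, f x ≤ ∫ x in I, a * g x :=
        setIntegral_mono_on hf (hg.const_mul a).integrableOn hI h
    _ = a * ∫ x in I, g x := integral_const_mul _ _
    _ ≤ a * ∫ x, g x :=
        mul_le_mul_of_nonneg_left (setIntegral_le_integral hg (ae_of_all _ g0)) ha

/-- the basic facts about the `j`-th packet -/
theorem loc (h2 : S_P5) (h3 : S_JW) (h5 : S_WT0) {q : ℕ} (hq : 2 ≤ q) {A r t : ℝ} (hA : 101 ≤ A)
    (hr : 0 < r) (ht : 0 < t) (ht1 : t ≤ 1) {α K : ℝ} {z w : ℝ → ℝ} (hz : IsZ z A) (hw : HI w)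
    (hcc : Continuous (cJ α K t)) (hc0 : ∀ x, 0 ≤ cJ α K t x) (hc1 : ∀ x, cJ α K t x ≤ 1)
    (hcI : ∀ x ≤ -1, cJ α K t x = 1)
    (hHQ : Hc α K (kq q) r z t w + Qc α K (kq q) r z t w ≤ 2) (j : ℕ)
    (hIq : ∀ x ∈ Iq q j, -(5 / 4 * Xq q j) ≤ x ∧ x ≤ -(3 / 4 * Xq q j) ∧ x ≤ -3)
    (hrX : r * (A + 2 * Xq q j + 100) ≤ t) (hw2 : Integrable (fun x => w x ^ 2))
    (hw12 : Integrable (fun x => deriv w x ^ 2)) :
    (∀ x ∈ Iq q j, hJ (kq q) r t (z x) ≤ 2 * (A+2) * (2^(4*j) * (t ^ kq q)⁻¹) ∧ z x = A - x) ∧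
    0 ≤ Bk α K (Xq q j) (Lq j) t w ∧
    (∫ x in Iq q j, |w x| ^ 5) ≤ 600 * t ^ kq q * (2^(8*j) * Bk α K (Xq q j) (Lq j) t w ^ ((3:ℝ)/4)
      + 1 / 2^(40*j)) ∧
    (∫ x in Iq q j, |w x|) ≤ 3 * 2^(8*j) ∧
    (∫ x in Iq q j, cJ α K t x * QJ (kq q) r t (z x) * deriv w x ^ 2) ≤ 2 := by
  have hκ := kq_pos hq
  have hκ' := kq_le hq
  have hX : 0 < Xq q j := by unfold Xq; positivity
  have hL : Lq j = (2^j)^20 := by
    unfold Lq
    rw [show (4:ℝ) = 2^2 by norm_num, ← pow_mul, ← pow_mul]; congr 1; ring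
  have hL0 : 0 < Lq j := by rw [hL]; positivity
  have hzc : Continuous z := hz.smooth.continuous
  have hhc : Continuous (fun x => hJ (kq q) r t (z x)) := hJ_cont hκ hr ht hzc hz.ge
  have hQc : Continuous (fun x => QJ (kq q) r t (z x)) := QJ_cont hκ hr ht hzc hz.ge
  have hQh : ∀ x, 0 < QJ (kq q) r t (z x) ∧ QJ (kq q) r t (z x) ≤ hJ (kq q) r t (z x) ∧
      0 < hJ (kq q) r t (z x) := fun x => QJ_le_h h3 hκ (by linarith) hr ht ht1 (hz.ge x)
  have hhb : ∀ x, hJ (kq q) r t (z x) ≤ (1 / r) ^ kq q := fun x =>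
    hJ_bdd hκ hr ht (by linarith [hz.ge x])
  have hwc : Continuous w := hw.1.continuous
  have hwc1 : Continuous (deriv w) := hw.1.continuous_deriv (by norm_num)
  have hIm : MeasurableSet (Iq q j) := by unfold Iq; exact measurableSet_Icc
  have hIco : ∀ f : ℝ → ℝ, Continuous f → IntegrableOn f (Iq q j) := fun f hf => by
    unfold Iq; exact hf.integrableOn_Icc
  -- integrability
  have i1 : Integrable (fun x => cJ α K t x * hJ (kq q) r t (z x) * w x ^ 2) := by
    refine int_bc (hcc.mul hhc) (M := (1 / r) ^ kq q) (fun x => ?_) hw2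
    rw [abs_of_nonneg (mul_nonneg (hc0 x) (hQh x).2.2.le)]
    calc cJ α K t x * hJ (kq q) r t (z x) ≤ 1 * hJ (kq q) r t (z x) :=
          mul_le_mul_of_nonneg_right (hc1 x) (hQh x).2.2.le
      _ ≤ _ := by rw [one_mul]; exact hhb x
  have i2 : Integrable (fun x => cJ α K t x * QJ (kq q) r t (z x) * deriv w x ^ 2) := by
    refine int_bc (hcc.mul hQc) (M := (1 / r) ^ kq q) (fun x => ?_) hw12
    rw [abs_of_nonneg (mul_nonneg (hc0 x) (hQh x).1.le)]
    calc cJ α K t x * QJ (kq q) r t (z x) ≤ 1 * QJ (kq q) r t (z x) :=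
          mul_le_mul_of_nonneg_right (hc1 x) (hQh x).1.le
      _ ≤ _ := by rw [one_mul]; exact (hQh x).2.1.trans (hhb x)
  have i3 : Integrable (fun x => bK (Xq q j) (Lq j) x * cJ α K t x * deriv w x ^ 2) := by
    refine int_bc ((bK_cont h5 hL0).mul hcc) (M := 1 / Lq j) (fun x => ?_) hw12
    have hb := bK_bd h5 (X := Xq q j) hL0 x
    rw [abs_of_nonneg (mul_nonneg hb.1.le (hc0 x))]
    calc bK (Xq q j) (Lq j) x * cJ α K t x ≤ bK (Xq q j) (Lq j) x * 1 :=
          mul_le_mul_of_nonneg_left (hc1 x) hb.1.le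
      _ ≤ _ := by rw [mul_one]; exact hb.2
  have p1 : ∀ x, 0 ≤ cJ α K t x * hJ (kq q) r t (z x) * w x ^ 2 := fun x =>
    mul_nonneg (mul_nonneg (hc0 x) (hQh x).2.2.le) (sq_nonneg _)
  have p2 : ∀ x, 0 ≤ cJ α K t x * QJ (kq q) r t (z x) * deriv w x ^ 2 := fun x =>
    mul_nonneg (mul_nonneg (hc0 x) (hQh x).1.le) (sq_nonneg _)
  have p3 : ∀ x, 0 ≤ bK (Xq q j) (Lq j) x * cJ α K t x * deriv w x ^ 2 := fun x =>
    mul_nonneg (mul_nonneg (bK_bd h5 (X := Xq q j) hL0 x).1.le (hc0 x)) (sq_nonneg _)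
  have hHc0 : 0 ≤ Hc α K (kq q) r z t w := integral_nonneg p1
  have hQc0 : 0 ≤ Qc α K (kq q) r z t w := integral_nonneg p2
  have hB0 : 0 ≤ Bk α K (Xq q j) (Lq j) t w := integral_nonneg p3
  -- constants
  set s : ℝ := t ^ kq q with hs
  have hs0 : 0 < s := Real.rpow_pos_of_pos ht _
  have hs1 : s ≤ 1 := Real.rpow_le_one ht.le ht1 hκ.le
  set u : ℝ := 2^j with hu
  have hu0 : 0 < u := by positivity
  have hup : ∀ k : ℕ, (2:ℝ)^(k*j) = u^k := fun k => by rw [hu, ← pow_mul, mul_comm]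
  have hc' : ∀ x ∈ Iq q j, cJ α K t x = 1 := fun x hx => hcI x (by linarith [(hIq x hx).2.2])
  have hzx : ∀ x ∈ Iq q j, z x = A - x := fun x hx => hz.lin x (by linarith [(hIq x hx).2.2])
  have hm : ∀ x ∈ Iq q j, w x ^ 2 ≤ (2 * s * (u⁻¹)^4) *
      (cJ α K t x * hJ (kq q) r t (z x) * w x ^ 2) := fun x hx => by
    have e1 : 1 / 2 * (2^(4*j) * s⁻¹) ≤ hJ (kq q) r t (z x) := by
      refine h_lower h3 hq j hr ht ?_ ?_
      · rw [hzx x hx]; linarith [(hIq x hx).2.1]
      · rw [hzx x hx]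
        refine le_trans ?_ hrX
        apply mul_le_mul_of_nonneg_left _ hr.le
        linarith [(hIq x hx).1]
    rw [hup] at e1
    rw [hc' x hx, one_mul]
    have e2 : 1 ≤ (2 * s * (u⁻¹)^4) * hJ (kq q) r t (z x) := by
      calc (1:ℝ) = (2 * s * (u⁻¹)^4) * (1 / 2 * (u^4 * s⁻¹)) := by field_simp
        _ ≤ _ := mul_le_mul_of_nonneg_left e1 (by positivity)
    calc w x ^ 2 = 1 * w x ^ 2 := by ring
      _ ≤ ((2 * s * (u⁻¹)^4) * hJ (kq q) r t (z x)) * w x ^ 2 :=
          mul_le_mul_of_nonneg_right e2 (sq_nonneg _)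
      _ = _ := by ring
  have hmI : (∫ x in Iq q j, w x ^ 2) ≤ 4 * s * (u⁻¹)^4 := by
    refine (setle hIm (by positivity) (hIco _ (hwc.pow 2)) i1 p1 hm).trans ?_
    have : (∫ x, cJ α K t x * hJ (kq q) r t (z x) * w x ^ 2) ≤ 2 := by
      have : Hc α K (kq q) r z t w ≤ 2 := by linarith
      exact this
    calc (2 * s * (u⁻¹)^4) * _ ≤ (2 * s * (u⁻¹)^4) * 2 :=
          mul_le_mul_of_nonneg_left this (by positivity)
      _ = _ := by ring
  have hm0 : 0 ≤ ∫ x in Iq q j, w x ^ 2 := integral_nonneg fun x => sq_nonneg _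
  have he0 : 0 ≤ ∫ x in Iq q j, deriv w x ^ 2 := integral_nonneg fun x => sq_nonneg _
  have heI : (∫ x in Iq q j, deriv w x ^ 2) ≤ 6 * u ^ 20 * Bk α K (Xq q j) (Lq j) t w := by
    refine setle hIm (by positivity) (hIco _ (hwc1.pow 2)) i3 p3 (fun x hx => ?_)
    rw [hc' x hx, mul_one]
    have hx' : -(Xq q j) - Lq j ≤ x ∧ x ≤ -(Xq q j) + Lq j := hx
    have e1 := bK_low hL0 hx'.1 hx'.2
    have e2 : 1 ≤ 6 * u^20 * bK (Xq q j) (Lq j) x := by
      rw [← hL]
      calc (1:ℝ) = 6 * Lq j * (1 / (6 * Lq j)) := by field_simp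
        _ ≤ _ := mul_le_mul_of_nonneg_left e1 (by positivity)
    calc deriv w x ^ 2 = 1 * deriv w x ^ 2 := by ring
      _ ≤ (6 * u^20 * bK (Xq q j) (Lq j) x) * deriv w x ^ 2 :=
          mul_le_mul_of_nonneg_right e2 (sq_nonneg _)
      _ = _ := by ring
  refine ⟨fun x hx => ⟨?_, hzx x hx⟩, hB0, ?_, ?_, ?_⟩
  · refine h_upper h3 hq j (by linarith) hr ht (by linarith [hz.ge x]) ?_
    rw [hzx x hx]
    linarith [(hIq x hx).1]
  · have e1 := h2 w (-(Xq q j)) (Lq j) (hw.1.of_le (by norm_num)) hL0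
    have e2 : (∫ x in Iq q j, |w x| ^ 5) ≤ 6 * (∫ x in Iq q j, w x ^ 2) ^ ((7 : ℝ) / 4) *
        ((∫ x in Iq q j, deriv w x ^ 2) + (∫ x in Iq q j, w x ^ 2) / Lq j ^ 2) ^ ((3 : ℝ) / 4) := e1
    have e3 := P5_bound hs0 hs1 hu0 (mul_inv_cancel₀ hu0.ne') hm0 hmI he0 heI hB0
    rw [← hL] at e3
    refine (e2.trans e3).trans (le_of_eq ?_)
    rw [hup, hup, one_div, inv_pow]
  · have e1 : ∀ x ∈ Iq q j, |w x| ≤ (u⁻¹)^12 / 2 + u^12 / 2 * w x ^ 2 := fun x _ => by
      have e2 : 0 ≤ (u^12 * |w x| - 1)^2 := sq_nonneg _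
      have e3 : |w x| ^ 2 = w x ^ 2 := sq_abs _
      have e4 : 0 ≤ (u⁻¹)^12 * (u^12 * |w x| - 1)^2 := by positivity
      have e5 : (u⁻¹)^12 * (u^12 * |w x| - 1)^2 = u^12 * |w x|^2 - 2 * |w x| + (u⁻¹)^12 := by
        field_simp
        ring
      rw [e5, e3] at e4
      linarith
    calc (∫ x in Iq q j, |w x|) ≤ ∫ x in Iq q j, ((u⁻¹)^12 / 2 + u^12 / 2 * w x ^ 2) :=
          setIntegral_mono_on (hIco _ hwc.abs) (hIco _ (by fun_prop)) hIm e1
      _ = (∫ x in Iq q j, (u⁻¹)^12 / 2) + ∫ x in Iq q j, u^12 / 2 * w x ^ 2 :=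
          integral_add (hIco _ (by fun_prop)) (hIco _ (by fun_prop))
      _ = 2 * Lq j * ((u⁻¹)^12 / 2) + u^12 / 2 * ∫ x in Iq q j, w x ^ 2 := by
          rw [integral_const_mul, setIntegral_const]
          have : (volume : Measure ℝ).real (Iq q j) = 2 * Lq j := by
            unfold Iq
            rw [Real.volume_real_Icc_of_le (by linarith)]
            ring
          rw [this, smul_eq_mul]
      _ ≤ 2 * Lq j * ((u⁻¹)^12 / 2) + u^12 / 2 * (4 * 1 * (u⁻¹)^4) := by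
          have e6 : (∫ x in Iq q j, w x ^ 2) ≤ 4 * 1 * (u⁻¹)^4 := by
            refine hmI.trans ?_
            gcongr
          gcongr
      _ = 3 * 2^(8*j) := by
          rw [hL, hup]
          field_simp
          ring
  · calc (∫ x in Iq q j, cJ α K t x * QJ (kq q) r t (z x) * deriv w x ^ 2)
        ≤ ∫ x, cJ α K t x * QJ (kq q) r t (z x) * deriv w x ^ 2 :=
          setIntegral_le_integral i2 (ae_of_all _ p2)
      _ = Qc α K (kq q) r z t w := rfl
      _ ≤ 2 := by linarith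


theorem xj1 (h1 : S_PKQ) (h2 : S_P5) (h3 : S_JW) (h4 : S_CUT) (h5 : S_WT0) (_h6 : S_SCL) :
    S_XJ1 := by
  intro α K A z q hα hα1 hK hq hz
  obtain ⟨C1, hC1, hPK⟩ := h1
  obtain ⟨C2, T2, hC2, hT2, hT21, hT2', hcut, hBI⟩ := h4 α K hα hα1 hK
  have hA : 101 ≤ A := by
    have e1 := hz.lin 1 le_rfl
    have e2 := hz.ge 1
    linarith
  set CA : ℝ := 2 * (A + 2) with hCA
  have hCA1 : 1 ≤ CA := by rw [hCA]; linarith
  have hκ := kq_pos hq
  have hκ' := kq_le hq
  have hC1sq : 1 ≤ C1 ^ 2 := one_le_pow₀ hC1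
  have hC1sq' : C1 ≤ C1 ^ 2 := by nlinarith
  have hCC : 1 ≤ CA * C1 ^ 2 := by nlinarith
  have hCC' : C1 ≤ CA * C1 ^ 2 := by nlinarith
  refine ⟨10000 * (CA * C1^2), T2, by linarith, hT2, hT21, ?_⟩
  intro k0 n r t hr ht htT hrA w hw hHQ
  obtain ⟨hIq, hoff, hon, -, -, -⟩ := hPK q k0 n hq
  have ht1 : t ≤ 1 := htT.trans hT21
  obtain ⟨-, hd, hpm, -, hd1, -, -, -, hns, -, -, hdc⟩ := hcut t ht htT
  have hcc : Continuous (cJ α K t) :=
    ((hBI t t ht le_rfl htT).2.smooth t ⟨le_rfl, le_rfl⟩).continuous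
  have hdcont : Continuous (dJ α K t) :=
    ((hBI t t ht le_rfl htT).1.smooth t ⟨le_rfl, le_rfl⟩).continuous
  have hc0 : ∀ x, 0 ≤ cJ α K t x := fun x => pow_nonneg (hd x).1 _
  have hc1 : ∀ x, cJ α K t x ≤ 1 := fun x => pow_le_one₀ (hd x).1 (hd x).2
  have hcI : ∀ x ≤ -1, cJ α K t x = 1 := fun x hx => by
    unfold cJ; rw [hd1 x (hpm x hx).le, one_pow]
  have hw2 : Integrable (fun x => w x ^ 2) := by
    have := (hw.2 0).integrable_sq
    simpa using this
  have hw12 : Integrable (fun x => deriv w x ^ 2) := by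
    have := (hw.2 1).integrable_sq
    simpa [iteratedDeriv_one] using this
  have hXm : ∀ i j : ℕ, i ≤ j → Xq q i ≤ Xq q j := fun i j hij => by
    unfold Xq
    have : (4:ℝ) ^ (10 * q * i) ≤ 4 ^ (10 * q * j) :=
      pow_le_pow_right₀ (by norm_num) (Nat.mul_le_mul_left _ hij)
    linarith
  have hLOC := fun (j : ℕ) (hj : j ∈ Finset.Ico k0 (k0 + n)) =>
    loc h2 h3 h5 hq hA hr ht ht1 hz hw hcc hc0 hc1 hcI hHQ j (hIq j).2.2.2
      (le_trans (by
        have := hXm j (k0 + n) (Finset.mem_Ico.1 hj).2.le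
        apply mul_le_mul_of_nonneg_left _ hr.le
        linarith) hrA) hw2 hw12
  -- positivity and continuity
  have hzc : Continuous z := hz.smooth.continuous
  have hhc : Continuous (fun x => hJ (kq q) r t (z x)) := hJ_cont hκ hr ht hzc hz.ge
  have hQc : Continuous (fun x => QJ (kq q) r t (z x)) := QJ_cont hκ hr ht hzc hz.ge
  have hQh : ∀ x, 0 < QJ (kq q) r t (z x) ∧ QJ (kq q) r t (z x) ≤ hJ (kq q) r t (z x) ∧
      0 < hJ (kq q) r t (z x) := fun x => QJ_le_h h3 hκ (by linarith) hr ht ht1 (hz.ge x)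
  have hhb : ∀ x, hJ (kq q) r t (z x) ≤ (1 / r) ^ kq q := fun x =>
    hJ_bdd hκ hr ht (by linarith [hz.ge x])
  have hwc : Continuous w := hw.1.continuous
  have hwc1 : Continuous (deriv w) := hw.1.continuous_deriv (by norm_num)
  have hIm : ∀ j, MeasurableSet (Iq q j) := fun j => by unfold Iq; exact measurableSet_Icc
  have hIco : ∀ j, ∀ f : ℝ → ℝ, Continuous f → IntegrableOn f (Iq q j) := fun j f hf => by
    unfold Iq; exact hf.integrableOn_Icc
  have i1 : Integrable (fun x => cJ α K t x * hJ (kq q) r t (z x) * w x ^ 2) := by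
    refine int_bc (hcc.mul hhc) (M := (1 / r) ^ kq q) (fun x => ?_) hw2
    rw [abs_of_nonneg (mul_nonneg (hc0 x) (hQh x).2.2.le)]
    calc cJ α K t x * hJ (kq q) r t (z x) ≤ 1 * hJ (kq q) r t (z x) :=
          mul_le_mul_of_nonneg_right (hc1 x) (hQh x).2.2.le
      _ ≤ _ := by rw [one_mul]; exact hhb x
  have p1 : ∀ x, 0 ≤ cJ α K t x * hJ (kq q) r t (z x) * w x ^ 2 := fun x =>
    mul_nonneg (mul_nonneg (hc0 x) (hQh x).2.2.le) (sq_nonneg _)
  have p2 : ∀ x, 0 ≤ cJ α K t x * QJ (kq q) r t (z x) * deriv w x ^ 2 := fun x =>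
    mul_nonneg (mul_nonneg (hc0 x) (hQh x).1.le) (sq_nonneg _)
  have hHc0 : 0 ≤ Hc α K (kq q) r z t w := integral_nonneg p1
  have hQc0 : 0 ≤ Qc α K (kq q) r z t w := integral_nonneg p2
  set s : ℝ := t ^ kq q with hs
  have hs0 : 0 < s := Real.rpow_pos_of_pos ht _
  have hs1 : s ≤ 1 := Real.rpow_le_one ht.le ht1 hκ.le
  have hsi : 1 ≤ s⁻¹ := (one_le_inv₀ hs0).2 hs1
  have hsn : t ^ (-(kq q)) = s⁻¹ := by rw [Real.rpow_neg ht.le]
  have hup : ∀ k j : ℕ, (2:ℝ)^(k*j) = (2^j)^k := fun k j => by rw [← pow_mul, mul_comm]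
  have hr100 : r * 100 ≤ t := by
    refine le_trans ?_ hrA
    apply mul_le_mul_of_nonneg_left _ hr.le
    have : 0 ≤ Xq q (k0 + n) := by unfold Xq; positivity
    linarith
  have hlow : ∀ x, s⁻¹ ≤ hJ (kq q) r t (z x) := fun x =>
    hJ_low1 h3 hq hr ht ht1 hr100 (hz.ge x)
  have hlow' : ∀ x, cJ α K t x * w x ^ 2 ≤ s * (cJ α K t x * hJ (kq q) r t (z x) * w x ^ 2) :=
    fun x => by
      have e1 : 1 ≤ s * hJ (kq q) r t (z x) := by
        calc (1:ℝ) = s * s⁻¹ := by field_simp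
          _ ≤ _ := mul_le_mul_of_nonneg_left (hlow x) hs0.le
      calc cJ α K t x * w x ^ 2 = 1 * (cJ α K t x * w x ^ 2) := by ring
        _ ≤ (s * hJ (kq q) r t (z x)) * (cJ α K t x * w x ^ 2) :=
            mul_le_mul_of_nonneg_right e1 (mul_nonneg (hc0 x) (sq_nonneg _))
        _ = _ := by ring
  have hBp : ∀ j ∈ Finset.Ico k0 (k0 + n), 0 ≤ Bk α K (Xq q j) (Lq j) t w ^ ((3:ℝ)/4) :=
    fun j hj => Real.rpow_nonneg (hLOC j hj).2.1 _
  have hX1 : ∀ j : ℕ, (2:ℝ)^(2*j) ≤ 3/4 * Xq q j := fun j => by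
    unfold Xq
    have e1 : (2:ℝ)^(2*j) ≤ 4 ^ (10 * q * j) := by
      rw [pow_mul]
      norm_num
      apply pow_le_pow_right₀ (by norm_num)
      nlinarith [Nat.zero_le j]
    have : (0:ℝ) < 2^(2*j) := by positivity
    linarith
  have hW5 : ∀ j ∈ Finset.Ico k0 (k0 + n), ∀ κ' : ℝ, 0 ≤ κ' →
      (∫ x in Iq q j, κ' * |w x| ^ 5) ≤ κ' * (600 * s *
        ((2^j)^8 * Bk α K (Xq q j) (Lq j) t w ^ ((3:ℝ)/4) + 1 / (2^j)^40)) := fun j hj κ' hk => by
    rw [integral_const_mul]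
    apply mul_le_mul_of_nonneg_left _ hk
    have := (hLOC j hj).2.2.1
    rwa [hup 8, hup 40] at this
  have hW1 : ∀ j ∈ Finset.Ico k0 (k0 + n), ∀ κ' : ℝ, 0 ≤ κ' →
      (∫ x in Iq q j, κ' * |w x|) ≤ κ' * (3 * (2^j)^8) := fun j hj κ' hk => by
    rw [integral_const_mul]
    apply mul_le_mul_of_nonneg_left _ hk
    have := (hLOC j hj).2.2.2.1
    rwa [hup 8] at this
  have hck : ∀ j, ∀ x ∈ Iq q j, cJ α K t x = 1 := fun j x hx =>
    hcI x (by linarith [((hIq j).2.2.2 x hx).2.2])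
  refine ⟨?_, ?_, ?_, ?_⟩
  · refine (sumI (s := Finset.Ico k0 (k0 + n)) hIm
      (F := fun j x => (CA * (2^j)^4 * s⁻¹ * (2 * C1) * (1 / (2^j)^10)) * |w x| ^ 5)
      (fun x => ?_) (fun x hx => ?_) (fun j hj => hIco j _ (by fun_prop))
      (fun j hj x hx => ?_)).trans ?_
    · have := (hQh x).2.2
      have h7 : 0 ≤ t / z x := by have := hz.ge x; positivity
      have := hc0 x
      positivity
    · have := hoff t x hx
      rw [this.2.1, this.2.2.1]
      simp
    · have e1 := (hLOC j hj).1 x hx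
      have e2 := hon t x j hj hx
      rw [hup 4] at e1
      rw [hup 10, hup 8] at e2
      have hu0 : (0:ℝ) < 2^j := by positivity
      have hzx : (2^j)^2 ≤ z x := by
        rw [e1.2]
        have := hX1 j
        rw [hup 2] at this
        linarith [((hIq j).2.2.2 x hx).2.1]
      have hzp : 0 < z x := lt_of_lt_of_le (by positivity) hzx
      have e3 : t / z x ≤ 1 / (2^j)^2 := by
        rw [div_le_div_iff₀ hzp (by positivity)]
        nlinarith
      have e4 : |deriv (gq q k0 n t) x| + t / z x * |gqt q k0 n t x| ≤ (2 * C1) * (1 / (2^j)^10) := by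
        have e5 : t / z x * |gqt q k0 n t x| ≤ 1 / (2^j)^2 * (1 / (2^j)^8) :=
          mul_le_mul e3 e2.2.2.1 (abs_nonneg _) (by positivity)
        have e6 : (1:ℝ) / (2^j)^2 * (1 / (2^j)^8) = 1 / (2^j)^10 := by field_simp
        rw [e6] at e5
        have e7 : C1 / (2^j)^10 = C1 * (1 / (2^j)^10) := by ring
        have e8 := e2.2.1
        rw [e7] at e8
        have e9 : 1 * (1 / ((2:ℝ)^j)^10) ≤ C1 * (1 / (2^j)^10) :=
          mul_le_mul_of_nonneg_right hC1 (by positivity)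
        linarith
      rw [hck j x hx, one_mul]
      calc hJ (kq q) r t (z x) * ((|deriv (gq q k0 n t) x| + t / z x * |gqt q k0 n t x|) * |w x| ^ 5)
          ≤ (CA * ((2^j)^4 * s⁻¹)) * (((2 * C1) * (1 / (2^j)^10)) * |w x| ^ 5) := by
            apply mul_le_mul e1.1 (mul_le_mul_of_nonneg_right e4 (by positivity)) _ (by positivity)
            have : 0 ≤ t / z x := by positivity
            positivity
        _ = _ := by ring
    · rw [Finset.mul_sum]
      refine Finset.sum_le_sum fun j hj => (hW5 j hj _ (by positivity)).trans ?_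
      have hB' := hBp j hj
      set B' := Bk α K (Xq q j) (Lq j) t w ^ ((3:ℝ)/4)
      rw [hup 2, hup 15]
      have hu1 : (1:ℝ) ≤ 2^j := one_le_pow₀ (by norm_num)
      have hu0 : (0:ℝ) < 2^j := by positivity
      set u : ℝ := 2^j
      calc CA * u^4 * s⁻¹ * (2 * C1) * (1 / u^10) * (600 * s * (u^8 * B' + 1 / u^40))
          = 1200 * (CA * C1) * (u^2 * B' + 1 / u^46) := by field_simp; ring
        _ ≤ 1200 * (CA * C1) * (u^2 * B' + 1 / u^15) := by
            gcongr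
            norm_num
        _ ≤ 10000 * (CA * C1^2) * (u^2 * B' + 1 / u^15) := by
            have : CA * C1 ≤ CA * C1^2 := by gcongr
            gcongr
            norm_num
  · refine (sumI (s := Finset.Ico k0 (k0 + n)) hIm
      (F := fun j x => (CA * (2^j)^4 * s⁻¹ * (C1 * (1 / (2^j)^29))) * |w x| +
        ((1 / (2 * (2^j)^16)) * (cJ α K t x * QJ (kq q) r t (z x) * deriv w x ^ 2) +
         ((CA * (2^j)^4 * s⁻¹ * (C1^2 * (1 / (2^j)^40)) / 2) +
         (CA * (2^j)^4 * s⁻¹ * (C1 * (1 / (2^j)^29))) * |w x| ^ 5)))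
      (fun x => ?_) (fun x hx => ?_) (fun j hj => hIco j _ (by fun_prop))
      (fun j hj x hx => ?_)).trans ?_
    · have h7 := (hQh x).2.2
      have h8 := (hQh x).1
      have := hc0 x
      positivity
    · have := hoff t x hx
      rw [this.2.2.2.1, this.2.2.2.2]
      simp
    · have e1 := (hLOC j hj).1 x hx
      have e2 := hon t x j hj hx
      rw [hup 4] at e1
      rw [hup 29, hup 28] at e2
      have hu0 : (0:ℝ) < 2^j := by positivity
      rw [hck j x hx, one_mul, one_mul]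
      obtain ⟨q1, q2, q3⟩ := hQh x
      set u : ℝ := 2^j
      set Q := QJ (kq q) r t (z x)
      set H := hJ (kq q) r t (z x)
      have e10 : |Sq q k0 n t x| ≤ C1 * (1 / u^29) := by
        have := e2.2.2.2.1
        rwa [div_eq_mul_one_div] at this
      have e11 : |deriv (Sq q k0 n t) x| ≤ C1 * (1 / u^28) := by
        have := e2.2.2.2.2
        rwa [div_eq_mul_one_div] at this
      have hH : H ≤ CA * u^4 * s⁻¹ := by
        refine e1.1.trans (le_of_eq ?_)
        ring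
      have hQH : Q ≤ CA * u^4 * s⁻¹ := q2.trans hH
      have f1 : H * (|Sq q k0 n t x| * |w x|) ≤ (CA * u^4 * s⁻¹ * (C1 * (1 / u^29))) * |w x| := by
        calc H * (|Sq q k0 n t x| * |w x|) ≤ (CA * u^4 * s⁻¹) * ((C1 * (1 / u^29)) * |w x|) := by
              gcongr
          _ = _ := by ring
      have f3 : Q * (|Sq q k0 n t x| * |w x| ^ 5) ≤
          (CA * u^4 * s⁻¹ * (C1 * (1 / u^29))) * |w x| ^ 5 := by
        calc Q * (|Sq q k0 n t x| * |w x| ^ 5) ≤
              (CA * u^4 * s⁻¹) * ((C1 * (1 / u^29)) * |w x| ^ 5) := by gcongr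
          _ = _ := by ring
      have f2 : Q * (|deriv (Sq q k0 n t) x| * |deriv w x|) ≤
          (1 / (2 * u^16)) * (Q * deriv w x ^ 2) + CA * u^4 * s⁻¹ * (C1^2 * (1 / u^40)) / 2 := by
        have g1 : |deriv (Sq q k0 n t) x| * |deriv w x| ≤
            (1 / (2 * u^16)) * deriv w x ^ 2 + (u^16 / 2) * |deriv (Sq q k0 n t) x| ^ 2 := by
          have g2 : 0 ≤ (1 / (2 * u^16)) * (|deriv w x| - u^16 * |deriv (Sq q k0 n t) x|)^2 := by
            positivity
          have g3 : (1 / (2 * u^16)) * (|deriv w x| - u^16 * |deriv (Sq q k0 n t) x|)^2 =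
              (1 / (2 * u^16)) * |deriv w x|^2 - |deriv (Sq q k0 n t) x| * |deriv w x| +
              (u^16 / 2) * |deriv (Sq q k0 n t) x| ^ 2 := by
            field_simp
            ring
          rw [g3, sq_abs (deriv w x)] at g2
          linarith
        have g4 : |deriv (Sq q k0 n t) x| ^ 2 ≤ (C1 * (1 / u^28))^2 := by gcongr
        calc Q * (|deriv (Sq q k0 n t) x| * |deriv w x|) ≤ Q * ((1 / (2 * u^16)) * deriv w x ^ 2
              + (u^16 / 2) * (C1 * (1 / u^28))^2) := by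
              apply mul_le_mul_of_nonneg_left _ q1.le
              refine g1.trans ?_
              gcongr
          _ = (1 / (2 * u^16)) * (Q * deriv w x ^ 2) + Q * ((C1^2 * (1 / u^40)) / 2) := by
              field_simp
          _ ≤ (1 / (2 * u^16)) * (Q * deriv w x ^ 2)
              + (CA * u^4 * s⁻¹) * ((C1^2 * (1 / u^40)) / 2) := by gcongr
          _ = _ := by ring
      linarith
    · rw [Finset.mul_sum]
      refine Finset.sum_le_sum fun j hj => ?_
      have hB' := hBp j hj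
      have i5 := hW5 j hj (CA * (2^j)^4 * s⁻¹ * (C1 * (1 / (2^j)^29))) (by positivity)
      have i6 := hW1 j hj (CA * (2^j)^4 * s⁻¹ * (C1 * (1 / (2^j)^29))) (by positivity)
      have i7 := (hLOC j hj).2.2.2.2
      have hL : Lq j = (2^j)^20 := by
        unfold Lq
        rw [show (4:ℝ) = 2^2 by norm_num, ← pow_mul, ← pow_mul]; congr 1; ring
      have hvol : (volume : Measure ℝ).real (Iq q j) = 2 * (2^j)^20 := by
        unfold Iq
        have : (0:ℝ) < (2^j)^20 := by positivity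
        rw [Real.volume_real_Icc_of_le (by rw [hL]; linarith), hL]
        ring
      rw [integral_add (hIco j _ (by fun_prop)) (hIco j _ (by fun_prop)),
        integral_add (hIco j _ (by fun_prop)) (hIco j _ (by fun_prop)),
        integral_add (hIco j _ (by fun_prop)) (hIco j _ (by fun_prop)),
        integral_const_mul (1 / (2 * (2^j)^16)), setIntegral_const, hvol, smul_eq_mul, hsn,
        hup 15, hup 2]
      set B' := Bk α K (Xq q j) (Lq j) t w ^ ((3:ℝ)/4)
      have hu1 : (1:ℝ) ≤ 2^j := one_le_pow₀ (by norm_num)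
      have hu0 : (0:ℝ) < 2^j := by positivity
      set u : ℝ := 2^j
      have j1 : CA * u^4 * s⁻¹ * (C1 * (1 / u^29)) * (3 * u^8) ≤
          3 * (CA * C1^2) * (s⁻¹ * (1 / u^15)) := by
        calc CA * u^4 * s⁻¹ * (C1 * (1 / u^29)) * (3 * u^8) = 3 * (CA * C1) * (s⁻¹ * (1 / u^17)) := by
              field_simp
          _ ≤ 3 * (CA * C1^2) * (s⁻¹ * (1 / u^15)) := by
              gcongr
              norm_num
      have j2 : 1 / (2 * u^16) * (∫ x in Iq q j, cJ α K t x * QJ (kq q) r t (z x) * deriv w x ^ 2) ≤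
          (CA * C1^2) * (s⁻¹ * (1 / u^15)) := by
        calc 1 / (2 * u^16) * (∫ x in Iq q j, cJ α K t x * QJ (kq q) r t (z x) * deriv w x ^ 2) ≤
              1 / (2 * u^16) * 2 := mul_le_mul_of_nonneg_left i7 (by positivity)
          _ = 1 * (1 * (1 / u^16)) := by field_simp
          _ ≤ (CA * C1^2) * (s⁻¹ * (1 / u^15)) := by
              gcongr
              norm_num
      have j3 : 2 * u^20 * (CA * u^4 * s⁻¹ * (C1^2 * (1 / u^40)) / 2) ≤
          (CA * C1^2) * (s⁻¹ * (1 / u^15)) := by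
        calc 2 * u^20 * (CA * u^4 * s⁻¹ * (C1^2 * (1 / u^40)) / 2) =
              (CA * C1^2) * (s⁻¹ * (1 / u^16)) := by field_simp
          _ ≤ (CA * C1^2) * (s⁻¹ * (1 / u^15)) := by
              gcongr
              norm_num
      have j4 : CA * u^4 * s⁻¹ * (C1 * (1 / u^29)) * (600 * s * (u^8 * B' + 1 / u^40)) ≤
          600 * (CA * C1^2) * (s⁻¹ * (1 / u^15)) + 600 * (CA * C1^2) * (u^2 * B') := by
        calc CA * u^4 * s⁻¹ * (C1 * (1 / u^29)) * (600 * s * (u^8 * B' + 1 / u^40)) =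
              600 * (CA * C1) * (1 * (1 / u^65)) + 600 * (CA * C1) * ((1 / u^17) * B') := by
              field_simp
              ring
          _ ≤ 600 * (CA * C1^2) * (s⁻¹ * (1 / u^15)) + 600 * (CA * C1^2) * (u^2 * B') := by
              have k1 : 1 / u^17 ≤ u^2 := by
                rw [div_le_iff₀ (by positivity)]
                calc (1:ℝ) ≤ u^19 := one_le_pow₀ hu1
                  _ = _ := by ring
              gcongr
              norm_num
      have k5 : 0 ≤ (CA * C1^2) * (s⁻¹ * (1 / u^15)) := by positivity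
      have k6 : 0 ≤ (CA * C1^2) * (u^2 * B') := by positivity
      linarith
  · intro k hk
    obtain ⟨hk1, hk2⟩ := Finset.mem_Ico.1 hk
    have hU0 : (0:ℝ) < 2^k := by positivity
    have hU1 : (1:ℝ) ≤ 2^k := one_le_pow₀ (by norm_num)
    have hLk : Lq k = (2^k)^20 := by
      unfold Lq
      rw [show (4:ℝ) = 2^2 by norm_num, ← pow_mul, ← pow_mul]; congr 1; ring
    have hLk0 : 0 < Lq k := by rw [hLk]; positivity
    have hX40 : 4 * (2^k)^40 ≤ Xq q k := by
      unfold Xq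
      have e1 : ((2:ℝ)^k)^40 ≤ 4 ^ (10 * q * k) := by
        rw [show (4:ℝ) = 2^2 by norm_num, ← pow_mul, ← pow_mul]
        apply pow_le_pow_right₀ (by norm_num)
        nlinarith [Nat.zero_le k]
      linarith
    have hU40 : (1:ℝ) ≤ (2^k)^40 := one_le_pow₀ hU1
    have hsm : ∀ x, -(1/2 * Xq q k) ≤ x → aK (Xq q k) (Lq k) x ≤ 1 / (2^k)^20 := fun x hx => by
      apply aK_small hLk0 (by positivity)
      rw [hLk]
      have : ((2:ℝ)^k)^20 * (2^k)^20 = (2^k)^40 := by ring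
      rw [this]
      linarith
    have hapos : ∀ x, 0 < aK (Xq q k) (Lq k) x ∧ aK (Xq q k) (Lq k) x ≤ 1 := fun x =>
      aK_pos h5 hLk0 x
    refine ⟨?_, ?_, ?_⟩
    · set a : ℕ → ℝ := fun j => if k ≤ j then 1 else 1 / (2^k)^20 with ha
      have ha0 : ∀ j, 0 < a j := fun j => by
        simp only [ha]; split_ifs <;> positivity
      have hale : ∀ j, ∀ x ∈ Iq q j, aK (Xq q k) (Lq k) x ≤ a j := fun j x hx => by
        simp only [ha]
        split_ifs with hkj
        · exact (hapos x).2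
        · apply hsm
          have e1 := ((hIq j).2.2.2 x hx).1
          have e2 := (hIq j).2.2.1
          have e3 := hXm (j+1) k (by omega)
          have e4 : 0 < Xq q k := by unfold Xq; positivity
          linarith
      have I1 : (∫ x, aK (Xq q k) (Lq k) x * cJ α K t x * (|deriv (gq q k0 n t) x| * |w x| ^ 5)) ≤
          ∑ j ∈ Finset.Ico k0 (k0 + n), (a j * C1 * (1 / (2^j)^10)) * (600 * s *
        ((2^j)^8 * Bk α K (Xq q j) (Lq j) t w ^ ((3:ℝ)/4) + 1 / (2^j)^40)) := by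
        refine (sumI (s := Finset.Ico k0 (k0 + n)) hIm
          (F := fun j x => (a j * C1 * (1 / (2^j)^10)) * |w x| ^ 5)
          (fun x => ?_) (fun x hx => ?_) (fun j hj => hIco j _ (by fun_prop))
          (fun j hj x hx => ?_)).trans ?_
        · have := (hapos x).1
          have := hc0 x
          positivity
        · have := hoff t x hx
          rw [this.2.1]
          simp
        · have e2 := hon t x j hj hx
          rw [hup 10] at e2
          rw [hck j x hx, mul_one]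
          have e3 := e2.2.1
          rw [div_eq_mul_one_div] at e3
          calc aK (Xq q k) (Lq k) x * (|deriv (gq q k0 n t) x| * |w x| ^ 5) ≤
                a j * ((C1 * (1 / (2^j)^10)) * |w x| ^ 5) := by
                apply mul_le_mul (hale j x hx) (mul_le_mul_of_nonneg_right e3 (by positivity))
                  (by positivity) (ha0 j).le
            _ = _ := by ring
        · exact Finset.sum_le_sum fun j hj => hW5 j hj _ (by have := ha0 j; positivity)
      have I2 : (∫ x, aK (Xq q k) (Lq k) x * cJ α K t x * (|Sq q k0 n t x| * |w x|)) ≤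
          ∑ j ∈ Finset.Ico k0 (k0 + n), (a j * C1 * (1 / (2^j)^29)) * (3 * (2^j)^8) := by
        refine (sumI (s := Finset.Ico k0 (k0 + n)) hIm
          (F := fun j x => (a j * C1 * (1 / (2^j)^29)) * |w x|)
          (fun x => ?_) (fun x hx => ?_) (fun j hj => hIco j _ (by fun_prop))
          (fun j hj x hx => ?_)).trans ?_
        · have := (hapos x).1
          have := hc0 x
          positivity
        · have := hoff t x hx
          rw [this.2.2.2.1]
          simp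
        · have e2 := hon t x j hj hx
          rw [hup 29] at e2
          rw [hck j x hx, mul_one]
          have e3 := e2.2.2.2.1
          rw [div_eq_mul_one_div] at e3
          calc aK (Xq q k) (Lq k) x * (|Sq q k0 n t x| * |w x|) ≤
                a j * ((C1 * (1 / (2^j)^29)) * |w x|) := by
                apply mul_le_mul (hale j x hx) (mul_le_mul_of_nonneg_right e3 (by positivity))
                  (by positivity) (ha0 j).le
            _ = _ := by ring
        · exact Finset.sum_le_sum fun j hj => hW1 j hj _ (by have := ha0 j; positivity)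
      have T : ∀ j ∈ Finset.Ico k0 (k0 + n), (a j * C1 * (1 / (2^j)^10)) * (600 * s *
          ((2^j)^8 * Bk α K (Xq q j) (Lq j) t w ^ ((3:ℝ)/4) + 1 / (2^j)^40)) +
          (a j * C1 * (1 / (2^j)^29)) * (3 * (2^j)^8) ≤
          600 * C1 * (a j * (1 / 2^(2*j) * Bk α K (Xq q j) (Lq j) t w ^ ((3:ℝ)/4))) +
          603 * C1 * (1 / (2^k)^20) * (1/2)^j := fun j hj => by
        have hB' := hBp j hj
        have haj := ha0 j
        have hext : a j * (1 / (2^j)^21) ≤ (1 / (2^k)^20) * (1/2)^j := by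
          have h2 : ((1:ℝ)/2)^j = 1 / 2^j := by rw [one_div_pow]
          rw [h2]
          simp only [ha]
          split_ifs with hkj
          · have e1 : (2:ℝ)^k ≤ 2^j := pow_le_pow_right₀ (by norm_num) hkj
            have e2 : (1:ℝ) / (2^j)^20 ≤ 1 / (2^k)^20 := by gcongr
            calc 1 * (1 / ((2:ℝ)^j)^21) = 1 / (2^j)^20 * (1 / 2^j) := by field_simp
              _ ≤ _ := by gcongr
          · have hu1 : (1:ℝ) ≤ 2^j := one_le_pow₀ (by norm_num)
            have : (1:ℝ) / (2^j)^21 ≤ 1 / 2^j := by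
              apply one_div_le_one_div_of_le (by positivity)
              calc (2:ℝ)^j = (2^j)^1 := by ring
                _ ≤ (2^j)^21 := pow_le_pow_right₀ hu1 (by norm_num)
            gcongr
        rw [hup 2]
        set B' := Bk α K (Xq q j) (Lq j) t w ^ ((3:ℝ)/4)
        have hu1 : (1:ℝ) ≤ 2^j := one_le_pow₀ (by norm_num)
        have hu0 : (0:ℝ) < 2^j := by positivity
        set u : ℝ := 2^j
        have e50 : 1 / u^50 ≤ 1 / u^21 := by
          gcongr
          norm_num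
        calc (a j * C1 * (1 / u^10)) * (600 * s * (u^8 * B' + 1 / u^40)) +
              (a j * C1 * (1 / u^29)) * (3 * u^8)
            ≤ (a j * C1 * (1 / u^10)) * (600 * 1 * (u^8 * B' + 1 / u^40)) +
              (a j * C1 * (1 / u^29)) * (3 * u^8) := by gcongr
          _ = 600 * C1 * (a j * (1 / u^2 * B')) + C1 * a j * (600 * (1 / u^50) + 3 * (1 / u^21)) := by
              field_simp
              ring
          _ ≤ 600 * C1 * (a j * (1 / u^2 * B')) + C1 * a j * (600 * (1 / u^21) + 3 * (1 / u^21)) := by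
              gcongr
          _ = 600 * C1 * (a j * (1 / u^2 * B')) + 603 * C1 * (a j * (1 / u^21)) := by ring
          _ ≤ 600 * C1 * (a j * (1 / u^2 * B')) + 603 * C1 * ((1 / (2^k)^20) * (1/2)^j) := by
              gcongr
          _ = _ := by ring
      have S1 := Finset.sum_le_sum T
      rw [Finset.sum_add_distrib, Finset.sum_add_distrib, ← Finset.mul_sum, ← Finset.mul_sum] at S1
      have S2 := geom_Ico k0 (k0 + n)
      have S3 : ∑ j ∈ Finset.Ico k0 (k0 + n), ((1:ℝ)/2) ^ j ≤ 2 := by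
        refine S2.trans ?_
        have : ((1:ℝ)/2)^k0 ≤ 1 := pow_le_one₀ (by norm_num) (by norm_num)
        linarith
      have S4 : ∑ j ∈ Finset.Ico k0 (k0 + n),
          a j * (1 / 2^(2*j) * Bk α K (Xq q j) (Lq j) t w ^ ((3:ℝ)/4)) =
          (∑ j ∈ Finset.Ico k (k0 + n), 1 / 2 ^ (2 * j) *
            Bk α K (Xq q j) (Lq j) t w ^ ((3 : ℝ) / 4))
            + 1 / 2 ^ (20 * k) * ∑ j ∈ Finset.Ico k0 k,
              1 / 2 ^ (2 * j) * Bk α K (Xq q j) (Lq j) t w ^ ((3 : ℝ) / 4) := by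
        rw [← Finset.sum_Ico_consecutive _ hk1 hk2.le, add_comm]
        congr 1
        · refine Finset.sum_congr rfl fun j hj => ?_
          simp only [ha, if_pos (Finset.mem_Ico.1 hj).1, one_mul]
        · rw [Finset.mul_sum]
          refine Finset.sum_congr rfl fun j hj => ?_
          have : ¬ k ≤ j := by have := (Finset.mem_Ico.1 hj).2; omega
          simp only [ha, if_neg this, hup 20]
      rw [S4] at S1
      have S5 : 0 ≤ (∑ j ∈ Finset.Ico k (k0 + n), 1 / 2 ^ (2 * j) *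
            Bk α K (Xq q j) (Lq j) t w ^ ((3 : ℝ) / 4))
            + 1 / 2 ^ (20 * k) * ∑ j ∈ Finset.Ico k0 k,
              1 / 2 ^ (2 * j) * Bk α K (Xq q j) (Lq j) t w ^ ((3 : ℝ) / 4) := by
        rw [← S4]
        exact Finset.sum_nonneg fun j hj => by
          have := hBp j hj
          have := ha0 j
          positivity
      set BB := (∑ j ∈ Finset.Ico k (k0 + n), 1 / 2 ^ (2 * j) *
            Bk α K (Xq q j) (Lq j) t w ^ ((3 : ℝ) / 4))
            + 1 / 2 ^ (20 * k) * ∑ j ∈ Finset.Ico k0 k,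
              1 / 2 ^ (2 * j) * Bk α K (Xq q j) (Lq j) t w ^ ((3 : ℝ) / 4) with hBB
      have S6 : 603 * C1 * (1 / ((2:ℝ)^k)^20) * ∑ j ∈ Finset.Ico k0 (k0 + n), ((1:ℝ)/2) ^ j ≤
          603 * (CA * C1^2) * (1 / 2^(15*k)) * 2 := by
        rw [hup 15]
        have S7 : (1:ℝ) / (2^k)^20 ≤ 1 / (2^k)^15 := by
          gcongr
          norm_num
        have S8 : 0 ≤ ∑ j ∈ Finset.Ico k0 (k0 + n), ((1:ℝ)/2) ^ j :=
          Finset.sum_nonneg fun j _ => by positivity
        gcongr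
      have S9 : 600 * C1 * BB ≤ 600 * (CA * C1^2) * BB := by gcongr
      have S10 : 0 ≤ (CA * C1^2) * BB := by positivity
      have S11 : 0 ≤ (CA * C1^2) * (1 / 2^(15*k)) := by positivity
      calc _ ≤ _ := add_le_add I1 I2
        _ ≤ 600 * C1 * BB + 603 * C1 * (1 / ((2:ℝ)^k)^20) *
            ∑ j ∈ Finset.Ico k0 (k0 + n), ((1:ℝ)/2) ^ j := S1
        _ ≤ 10000 * (CA * C1^2) * (1 / 2^(15*k) + BB) := by linarith
        _ = _ := by rw [hBB]; ring
    · have pw : ∀ x, aK (Xq q k) (Lq k) x * cJ α K t x * w x ^ 2 ≤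
          (2 * s * (1 / (2^k)^4)) * (cJ α K t x * hJ (kq q) r t (z x) * w x ^ 2) := fun x => by
        have hcw : 0 ≤ cJ α K t x * w x ^ 2 := mul_nonneg (hc0 x) (sq_nonneg _)
        by_cases hx : x ≤ -(1/2 * Xq q k)
        · have hXk4 : 4 ≤ Xq q k := by linarith
          have hzx : z x = A - x := hz.lin x (by linarith)
          have e1 := h_lower (Z := 1/2 * Xq q k) h3 hq k hr ht le_rfl (by
            refine le_trans ?_ hrA
            apply mul_le_mul_of_nonneg_left _ hr.le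
            have := hXm k (k0 + n) hk2.le
            linarith)
          have e2 : hJ (kq q) r t (1/2 * Xq q k) ≤ hJ (kq q) r t (z x) :=
            hJ_mono hκ hr ht (by linarith) (by rw [hzx]; linarith)
          rw [hup 4] at e1
          have e3 : 1 ≤ (2 * s * (1 / (2^k)^4)) * hJ (kq q) r t (z x) := by
            calc (1:ℝ) = (2 * s * (1 / (2^k)^4)) * (1 / 2 * ((2^k)^4 * s⁻¹)) := by field_simp
              _ ≤ _ := mul_le_mul_of_nonneg_left (e1.trans e2) (by positivity)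
          calc aK (Xq q k) (Lq k) x * cJ α K t x * w x ^ 2 =
                aK (Xq q k) (Lq k) x * (cJ α K t x * w x ^ 2) := by ring
            _ ≤ ((2 * s * (1 / (2^k)^4)) * hJ (kq q) r t (z x)) * (cJ α K t x * w x ^ 2) :=
                mul_le_mul_of_nonneg_right ((hapos x).2.trans e3) hcw
            _ = _ := by ring
        · push Not at hx
          have e1 := hsm x hx.le
          have e2 : (1:ℝ) / (2^k)^20 ≤ 1 / (2^k)^4 := by
            gcongr
            norm_num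
          calc aK (Xq q k) (Lq k) x * cJ α K t x * w x ^ 2 =
                aK (Xq q k) (Lq k) x * (cJ α K t x * w x ^ 2) := by ring
            _ ≤ (1 / (2^k)^4) * (s * (cJ α K t x * hJ (kq q) r t (z x) * w x ^ 2)) :=
                mul_le_mul (e1.trans e2) (hlow' x) hcw (by positivity)
            _ ≤ (2 * (1 / (2^k)^4)) * (s * (cJ α K t x * hJ (kq q) r t (z x) * w x ^ 2)) := by
                apply mul_le_mul_of_nonneg_right _ (mul_nonneg hs0.le (p1 x))
                have : (0:ℝ) < 1 / (2^k)^4 := by positivity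
                linarith
            _ = _ := by ring
      calc (∫ x, aK (Xq q k) (Lq k) x * cJ α K t x * w x ^ 2) ≤
            ∫ x, (2 * s * (1 / (2^k)^4)) * (cJ α K t x * hJ (kq q) r t (z x) * w x ^ 2) := by
            apply integral_mono_of_nonneg (ae_of_all _ fun x => ?_) (i1.const_mul _)
              (ae_of_all _ pw)
            have := (hapos x).1
            have := hc0 x
            show 0 ≤ aK (Xq q k) (Lq k) x * cJ α K t x * w x ^ 2
            positivity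
        _ = (2 * s * (1 / (2^k)^4)) * Hc α K (kq q) r z t w := by rw [integral_const_mul]; rfl
        _ ≤ (2 * s * (1 / (2^k)^4)) * 2 := by
            apply mul_le_mul_of_nonneg_left _ (by positivity)
            linarith
        _ = 4 * 1 * (s * (1 / (2^k)^4)) := by ring
        _ ≤ 10000 * (CA * C1^2) * (s * (1 / (2^k)^4)) := by
            have : 0 ≤ s * (1 / ((2:ℝ)^k)^4) := by positivity
            apply mul_le_mul_of_nonneg_right _ this
            linarith
        _ = _ := by rw [hup 4]; ring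
    · have e1 : (2^k)^20 ≤ (Xq q k - 1) / Lq k := by
        rw [le_div_iff₀ hLk0, hLk]
        have : ((2:ℝ)^k)^20 * (2^k)^20 = (2^k)^40 := by ring
        rw [this]
        linarith
      have e2 := Real.add_one_le_exp ((Xq q k - 1) / Lq k)
      rw [Real.exp_neg, hup 20]
      have e3 : ((2:ℝ)^k)^20 ≤ Real.exp ((Xq q k - 1) / Lq k) := by linarith
      calc (Real.exp ((Xq q k - 1) / Lq k))⁻¹ ≤ ((2^k)^20)⁻¹ :=
            inv_anti₀ (by positivity) e3
        _ = 1 * ((2^k)^20)⁻¹ := (one_mul _).symm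
        _ ≤ (10000 * (CA * C1^2)) * ((2^k)^20)⁻¹ := by
            apply mul_le_mul_of_nonneg_right _ (by positivity)
            linarith
        _ = _ := by rw [div_eq_mul_inv]
  · have hlam : 0 ≤ lam α t ^ 2 := sq_nonneg _
    have i4 : Integrable (fun x => ind α K t x * (lam α t ^ 2 * deriv w x ^ 2 + w x ^ 2)) := by
      have e1 : (fun x => ind α K t x * (lam α t ^ 2 * deriv w x ^ 2 + w x ^ 2)) =
          (nearS α K t).indicator (fun x => lam α t ^ 2 * deriv w x ^ 2 + w x ^ 2) := by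
        funext x
        unfold ind
        by_cases hx : x ∈ nearS α K t
        · rw [Set.indicator_of_mem hx, Set.indicator_of_mem hx, one_mul]
        · rw [Set.indicator_of_notMem hx, Set.indicator_of_notMem hx, zero_mul]
      rw [e1]
      exact ((hw12.const_mul _).add hw2).indicator hns
    have hind : ∀ x, 0 ≤ ind α K t x := fun x => by
      unfold ind
      exact Set.indicator_nonneg (fun _ _ => zero_le_one) x
    calc Nd α K t w = ∫ x, dJ α K t x ^ 2 * w x ^ 2 := rfl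
      _ ≤ ∫ x, (s * (cJ α K t x * hJ (kq q) r t (z x) * w x ^ 2) +
            ind α K t x * (lam α t ^ 2 * deriv w x ^ 2 + w x ^ 2)) := by
          apply integral_mono_of_nonneg (ae_of_all _ fun x => by positivity)
            ((i1.const_mul s).add i4) (ae_of_all _ fun x => ?_)
          show dJ α K t x ^ 2 * w x ^ 2 ≤ s * (cJ α K t x * hJ (kq q) r t (z x) * w x ^ 2) +
            ind α K t x * (lam α t ^ 2 * deriv w x ^ 2 + w x ^ 2)
          have e1 : dJ α K t x ^ 2 * w x ^ 2 ≤ (cJ α K t x + ind α K t x) * w x ^ 2 :=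
            mul_le_mul_of_nonneg_right (hdc x) (sq_nonneg _)
          have e2 := hlow' x
          have e3 : 0 ≤ ind α K t x * (lam α t ^ 2 * deriv w x ^ 2) := by
            have := hind x
            positivity
          linarith
      _ = s * Hc α K (kq q) r z t w + NR0f α K t w := by
          rw [integral_add (i1.const_mul s) i4, integral_const_mul]
          rfl

end Pool.Agent.Helper2.KV
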